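import Pool.Agent.U531.FP.Merge

set_option autoImplicit false

/-!
# Merging `2 ^ n` colourings into one
-/

open Finset

namespace Pool.Agent.U531.FP

noncomputable section

universe u w z

/-- the accumulated relative error -/
def Pr (v : ℝ) (n : ℕ) : ℝ := ∏ j ∈ range n, (1 + 2 * v * (1 + 2 * (j : ℝ)) / 4 ^ j)

theorem Pr_succ (v : ℝ) (n : ℕ) :
    Pr v (n + 1) = Pr v n * (1 + 2 * v * (1 + 2 * (n : ℝ)) / 4 ^ n) := by
  unfold Pr
  rw [prod_range_succ]

theorem one_le_Pr {v : ℝ} (hv : 0 ≤ v) (n : ℕ) : 1 ≤ Pr v n := by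
  induction n with
  | zero => simp [Pr]
  | succ n ih =>
    rw [Pr_succ]
    have h : 0 ≤ 2 * v * (1 + 2 * (n : ℝ)) / 4 ^ n := by positivity
    nlinarith

theorem sum4 (n : ℕ) :
    ∑ j ∈ range n, (1 + 2 * (j : ℝ)) / 4 ^ j = 20 / 9 - (24 * n + 20) / (9 * 4 ^ n) := by
  induction n with
  | zero => norm_num
  | succ n ih =>
    rw [sum_range_succ, ih, pow_succ]
    push_cast
    field_simp
    ring

theorem sum2 (n : ℕ) :
    ∑ j ∈ range n, (1 + 2 * (j : ℝ)) / 2 ^ j = 6 - (4 * n + 6) / 2 ^ n := by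
  induction n with
  | zero => norm_num
  | succ n ih =>
    rw [sum_range_succ, ih, pow_succ]
    push_cast
    field_simp
    ring

theorem Pr_le {v : ℝ} (hv : 0 ≤ v) (n : ℕ) : Pr v n ≤ Real.exp (5 * v) := by
  have h1 : Pr v n ≤ Real.exp (∑ j ∈ range n, 2 * v * (1 + 2 * (j : ℝ)) / 4 ^ j) := by
    unfold Pr
    rw [Real.exp_sum]
    refine prod_le_prod (fun j _ => by positivity) fun j _ => ?_
    rw [add_comm]
    exact Real.add_one_le_exp _
  refine h1.trans (Real.exp_le_exp.2 ?_)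
  have h2 : ∑ j ∈ range n, 2 * v * (1 + 2 * (j : ℝ)) / 4 ^ j =
      2 * v * ∑ j ∈ range n, (1 + 2 * (j : ℝ)) / 4 ^ j := by
    rw [mul_sum]
    exact sum_congr rfl fun j _ => by ring
  rw [h2, sum4]
  have h3 : (0 : ℝ) ≤ (24 * n + 20) / (9 * 4 ^ n) := by positivity
  nlinarith

theorem Pr_sub_le {v : ℝ} (hv : 0 ≤ v) (n : ℕ) : Pr v n - 1 ≤ 5 * v * Real.exp (5 * v) := by
  have h1 := Pr_le hv n
  have h2 : 1 - 5 * v ≤ Real.exp (-(5 * v)) := by
    have := Real.add_one_le_exp (-(5 * v))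
    linarith
  have h3 : Real.exp (-(5 * v)) * Real.exp (5 * v) = 1 := by
    rw [← Real.exp_add]
    simp
  have h4 := Real.exp_pos (5 * v)
  have h5 : (1 - 5 * v) * Real.exp (5 * v) ≤ 1 := by
    calc (1 - 5 * v) * Real.exp (5 * v) ≤ Real.exp (-(5 * v)) * Real.exp (5 * v) := by gcongr
      _ = 1 := h3
  linarith

variable {X : Type u} {ι : Type w} {K : Type z}

/-- all merging steps -/
theorem ind {C : ℝ} (hC : 0 < C)
    (H : ∀ (D : ℕ), 1 ≤ D → ∀ (V : Type u) (W : Type (max w z)) [Fintype V] [Fintype W]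
      (A : W → V → ℝ), (∀ v, ∑ R, A R v ^ 2 ≤ 1) →
      ∃ x : V → ℝ, (∀ v, x v = 1 ∨ x v = -1) ∧
      ∀ (R : W) (N : ℝ), (∑ v, (if A R v = 0 then (0 : ℝ) else 1)) ≤ N →
        |∑ v, A R v * x v| ≤ C * (1 + Real.log D) * (1 + N / D))
    (S : ι → Finset X) (I₀ : Finset ι) (K₀ : Finset K) (t : ℕ) (ht : 1 ≤ t)
    (hdeg : ∀ x, ∑ i ∈ I₀, (open Classical in if x ∈ S i then (1 : ℝ) else 0) ≤ t)
    (N : ℕ) (hN : 1 ≤ N) (q v : ℝ) (hq : q = C * √t * (1 + Real.log N)) (hv : v = q / N)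
    (n : ℕ) : ∀ (F : Fin (2 ^ n) → X → K),
    ∃ g : X → K, (∀ x, ∃ j, g x = F j x) ∧
      ∀ R ∈ I₀, ∀ a ∈ K₀, |cnt g (S R) a - M F (S R) a| ≤
        ∑ j ∈ range n, q * ((1 + 2 * (j : ℝ)) / 2 ^ j) * Pr v j +
          (Pr v n - 1) * M F (S R) a := by
  have hN1 : (1 : ℝ) ≤ N := by exact_mod_cast hN
  have hlN : 0 ≤ Real.log (N : ℝ) := Real.log_nonneg hN1
  have hq0 : 0 ≤ q := by
    rw [hq]
    positivity
  have hv0 : 0 ≤ v := by
    rw [hv]
    positivity
  induction n with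
  | zero =>
    intro F
    refine ⟨F 0, fun x => ⟨0, rfl⟩, fun R _ a _ => ?_⟩
    have h1 : M F (S R) a = cnt (F 0) (S R) a := by
      unfold M
      rw [pow_zero, inv_one, one_mul]
      change (∑ i : Fin 1, cnt (F i) (S R) a) = cnt (F 0) (S R) a
      exact Fin.sum_univ_one _
    rw [h1, sub_self, abs_zero]
    simp [Pr]
  | succ n ih =>
    intro F
    obtain ⟨G, hG1, hG2⟩ := merge hC H S I₀ K₀ t ht hdeg N hN n F
    obtain ⟨g, hg1, hg2⟩ := ih G
    refine ⟨g, ?_, ?_⟩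
    · intro x
      obtain ⟨i, hi⟩ := hg1 x
      obtain ⟨j, hj⟩ := hG1 i x
      exact ⟨j, hi.trans hj⟩
    · intro R hR a ha
      have h1 := hG2 R hR a ha
      have h2 := hg2 R hR a ha
      have hP1 := one_le_Pr hv0 n
      have hMF := M_nonneg F (S R) a
      have e1 : C * √t * (1 + Real.log N) * (1 + 2 * n) *
          ((2 ^ n)⁻¹ + 2 * M F (S R) a / (N * 4 ^ n)) =
          q * ((1 + 2 * (n : ℝ)) / 2 ^ n) + 2 * v * (1 + 2 * (n : ℝ)) / 4 ^ n * M F (S R) a := by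
        rw [hv, hq]
        field_simp
      rw [e1] at h1
      have h3 : M G (S R) a ≤ M F (S R) a + (q * ((1 + 2 * (n : ℝ)) / 2 ^ n) +
          2 * v * (1 + 2 * (n : ℝ)) / 4 ^ n * M F (S R) a) := by
        have := (abs_le.1 h1).2
        linarith
      rw [sum_range_succ, Pr_succ]
      have h4 : |cnt g (S R) a - M F (S R) a| ≤
          |cnt g (S R) a - M G (S R) a| + |M G (S R) a - M F (S R) a| := by
        have := abs_add_le (cnt g (S R) a - M G (S R) a) (M G (S R) a - M F (S R) a)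
        simpa using this
      have h5 : (Pr v n - 1) * M G (S R) a ≤ (Pr v n - 1) * (M F (S R) a +
          (q * ((1 + 2 * (n : ℝ)) / 2 ^ n) +
          2 * v * (1 + 2 * (n : ℝ)) / 4 ^ n * M F (S R) a)) :=
        mul_le_mul_of_nonneg_left h3 (by linarith)
      refine h4.trans (le_trans (add_le_add (h2.trans (add_le_add le_rfl h5)) h1)
        (le_of_eq ?_))
      ring

/-- **merging `2 ^ n` colourings** -/
theorem merge_all : ∃ C : ℝ, 0 < C ∧ ∀ (X : Type u) (ι : Type w) (K : Type z)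
    (S : ι → Finset X) (I₀ : Finset ι) (K₀ : Finset K) (t N : ℕ), 1 ≤ t → t ≤ N →
    (∀ x, ∑ i ∈ I₀, (open Classical in if x ∈ S i then (1 : ℝ) else 0) ≤ t) →
    ∀ (n : ℕ) (F : Fin (2 ^ n) → X → K),
    ∃ g : X → K, (∀ x, ∃ j, g x = F j x) ∧
      ∀ R ∈ I₀, ∀ a ∈ K₀, |cnt g (S R) a - M F (S R) a| ≤
        C * √t * (1 + Real.log N) * (1 + M F (S R) a / N) := by
  obtain ⟨C, hC, H⟩ := cutU.{u, max w z}
  refine ⟨6 * C * Real.exp (10 * C), by positivity, ?_⟩
  intro X ι K S I₀ K₀ t N ht htN hdeg n F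
  have hN : 1 ≤ N := ht.trans htN
  have hN1 : (1 : ℝ) ≤ N := by exact_mod_cast hN
  have hN0 : (0 : ℝ) < N := by linarith
  have hlN : 0 ≤ Real.log (N : ℝ) := Real.log_nonneg hN1
  obtain ⟨q, hq⟩ : ∃ q : ℝ, q = C * √t * (1 + Real.log N) := ⟨_, rfl⟩
  obtain ⟨v, hv⟩ : ∃ v : ℝ, v = q / N := ⟨_, rfl⟩
  have hq0 : 0 ≤ q := by
    rw [hq]
    positivity
  have hv0 : 0 ≤ v := by
    rw [hv]
    positivity
  have hv1 : v ≤ 2 * C := by
    rw [hv, hq, div_le_iff₀ hN0]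
    have h1 : √(t : ℝ) ≤ √(N : ℝ) := Real.sqrt_le_sqrt (by exact_mod_cast htN)
    have h2 : 1 + Real.log N ≤ 2 * √(N : ℝ) := by
      have h3 : 0 < √(N : ℝ) := Real.sqrt_pos.2 hN0
      have h4 := Real.log_le_sub_one_of_pos h3
      rw [Real.log_sqrt hN0.le] at h4
      linarith
    calc C * √t * (1 + Real.log N) ≤ C * √(N : ℝ) * (2 * √(N : ℝ)) := by gcongr
      _ = 2 * C * N := by
        have : √(N : ℝ) * √(N : ℝ) = N := Real.mul_self_sqrt hN0.le
        linear_combination 2 * C * this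
  obtain ⟨g, hg1, hg2⟩ := ind hC H S I₀ K₀ t ht hdeg N hN q v hq hv n F
  refine ⟨g, hg1, fun R hR a ha => (hg2 R hR a ha).trans ?_⟩
  have hM := M_nonneg F (S R) a
  have hE : Real.exp (5 * v) ≤ Real.exp (10 * C) := Real.exp_le_exp.2 (by linarith)
  have h1 : ∑ j ∈ range n, q * ((1 + 2 * (j : ℝ)) / 2 ^ j) * Pr v j ≤
      6 * q * Real.exp (10 * C) := by
    calc ∑ j ∈ range n, q * ((1 + 2 * (j : ℝ)) / 2 ^ j) * Pr v j
        ≤ ∑ j ∈ range n, q * ((1 + 2 * (j : ℝ)) / 2 ^ j) * Real.exp (10 * C) := by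
          refine sum_le_sum fun j _ => ?_
          have := (Pr_le hv0 j).trans hE
          gcongr
      _ = q * Real.exp (10 * C) * ∑ j ∈ range n, (1 + 2 * (j : ℝ)) / 2 ^ j := by
          rw [mul_sum]
          exact sum_congr rfl fun j _ => by ring
      _ ≤ q * Real.exp (10 * C) * 6 := by
          rw [sum2]
          have h3 : (0 : ℝ) ≤ (4 * n + 6) / 2 ^ n := by positivity
          gcongr
          linarith
      _ = 6 * q * Real.exp (10 * C) := by ring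
  have h2 : (Pr v n - 1) * M F (S R) a ≤ 5 * v * Real.exp (10 * C) * M F (S R) a := by
    have := Pr_sub_le hv0 n
    have h3 : 5 * v * Real.exp (5 * v) ≤ 5 * v * Real.exp (10 * C) := by gcongr
    exact mul_le_mul_of_nonneg_right (this.trans h3) hM
  have h3 : 5 * v * Real.exp (10 * C) * M F (S R) a ≤ 6 * q * Real.exp (10 * C) *
      (M F (S R) a / N) := by
    rw [hv]
    have h4 : 5 * (q / N) * Real.exp (10 * C) * M F (S R) a =
        5 * q * Real.exp (10 * C) * (M F (S R) a / N) := by ring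
    rw [h4]
    gcongr
    norm_num
  calc ∑ j ∈ range n, q * ((1 + 2 * (j : ℝ)) / 2 ^ j) * Pr v j + (Pr v n - 1) * M F (S R) a
      ≤ 6 * q * Real.exp (10 * C) + 6 * q * Real.exp (10 * C) * (M F (S R) a / N) := by
        linarith
    _ = 6 * C * Real.exp (10 * C) * √t * (1 + Real.log N) * (1 + M F (S R) a / N) := by
        rw [hq]
        ring

end

end Pool.Agent.U531.FP
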