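import Pool.Agent.N421.KD.Cor

set_option autoImplicit false

/-!
# Joint merging of copies of a colouring
-/

open Finset

namespace Pool.Agent.U531.FP

open Pool.Agent.R959.LD2

noncomputable section

universe u w z

/-- the library theorem for types in all universes, with start point `0` -/
theorem cutU : ∃ C : ℝ, 0 < C ∧ ∀ (D : ℕ), 1 ≤ D →
    ∀ (V : Type u) (W : Type w) [Fintype V] [Fintype W] (A : W → V → ℝ),
    (∀ v, ∑ R, A R v ^ 2 ≤ 1) →
    ∃ x : V → ℝ, (∀ v, x v = 1 ∨ x v = -1) ∧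
      ∀ (R : W) (N : ℝ), (∑ v, (if A R v = 0 then (0 : ℝ) else 1)) ≤ N →
        |∑ v, A R v * x v| ≤ C * (1 + Real.log D) * (1 + N / D) := by
  classical
  obtain ⟨C, hC, h⟩ := Pool.Agent.N421.KD.cut
  refine ⟨C, hC, ?_⟩
  intro D hD V W _ _ A hcol
  have hD1 : (1 : ℝ) ≤ D := by exact_mod_cast hD
  let eV := Fintype.equivFin V
  let eW := Fintype.equivFin W
  obtain ⟨x, x1, -, x3⟩ := h D hD (Fin (Fintype.card V)) (Fin (Fintype.card W))
    (fun R v => A (eW.symm R) (eV.symm v)) (fun _ => 0) (by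
      intro v
      rw [Equiv.sum_comp eW.symm (fun R => A R (eV.symm v) ^ 2)]
      exact hcol _) (by simp)
  refine ⟨fun v => x (eV v), fun v => x1 _, fun R N hN => ?_⟩
  have h3 := x3 (eW R)
  simp only [Equiv.symm_apply_apply, sub_zero, abs_zero, mul_one] at h3
  have e1 : ∑ v, A R v * x (eV v) = ∑ v, A R (eV.symm v) * x v := by
    rw [← Equiv.sum_comp eV (fun v => A R (eV.symm v) * x v)]
    simp
  have e2 : ((supp (fun v => A R (eV.symm v))).card : ℝ) ≤ N := by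
    refine le_trans (le_of_eq ?_) hN
    rw [← Equiv.sum_comp eV.symm (fun v => if A R v = 0 then (0 : ℝ) else 1)]
    rw [card_eq_sum_ones, Nat.cast_sum, ← Finset.sum_filter_add_sum_filter_not univ
      (fun v => A R (eV.symm v) = 0) (fun v => if A R (eV.symm v) = 0 then (0 : ℝ) else 1)]
    rw [Finset.sum_eq_zero (s := univ.filter fun v => A R (eV.symm v) = 0)
      (fun v hv => if_pos (mem_filter.1 hv).2), zero_add]
    refine Finset.sum_congr ?_ fun v hv => ?_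
    · ext v
      rw [mem_supp, mem_filter]
      simp
    · rw [if_neg (mem_filter.1 hv).2, Nat.cast_one]
  rw [e1]
  refine h3.trans ?_
  have hlD : 0 ≤ Real.log (D : ℝ) := Real.log_nonneg hD1
  gcongr

variable {X : Type u} {ι : Type w} {K : Type z}

open Classical in
/-- indicator of `b = a` -/
def e (b a : K) : ℝ := if b = a then 1 else 0

theorem e_nonneg (b a : K) : 0 ≤ e b a := by
  unfold e
  split_ifs
  · exact zero_le_one
  · exact le_rfl

/-- number of the elements of `T` of colour `a` -/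
def cnt (g : X → K) (T : Finset X) (a : K) : ℝ := ∑ x ∈ T, e (g x) a

theorem cnt_nonneg (g : X → K) (T : Finset X) (a : K) : 0 ≤ cnt g T a :=
  sum_nonneg fun _ _ => e_nonneg _ _

/-- the mean number of the elements of `T` of colour `a` in `2 ^ n` colourings -/
def M {n : ℕ} (F : Fin (2 ^ n) → X → K) (T : Finset X) (a : K) : ℝ :=
  (2 ^ n)⁻¹ * ∑ i, cnt (F i) T a

theorem M_nonneg {n : ℕ} (F : Fin (2 ^ n) → X → K) (T : Finset X) (a : K) : 0 ≤ M F T a :=
  mul_nonneg (by positivity) (sum_nonneg fun _ _ => cnt_nonneg _ _ _)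

open Classical in
/-- entries of the matrix of the merging step -/
def mat (S : ι → Finset X) (τ : ℝ) (f0 f1 : X → K) (R : ι) (a : K) (x : X) : ℝ :=
  if x ∈ S R then (e (f0 x) a - e (f1 x) a) / τ else 0

theorem e_sq_sum (K₀ : Finset K) (b c : K) :
    ∑ a ∈ K₀, (e b a - e c a) ^ 2 ≤ 2 := by
  classical
  have h1 : ∀ a ∈ K₀, (e b a - e c a) ^ 2 ≤ e b a + e c a := by
    intro a _
    unfold e
    split_ifs <;> norm_num
  refine (sum_le_sum h1).trans ?_
  rw [sum_add_distrib]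
  have h2 : ∀ b : K, ∑ a ∈ K₀, e b a ≤ 1 := by
    intro b
    unfold e
    rw [Finset.sum_ite_eq]
    split_ifs <;> norm_num
  linarith [h2 b, h2 c]

/-- **one merging step** -/
theorem merge {C : ℝ} (hC : 0 < C)
    (H : ∀ (D : ℕ), 1 ≤ D → ∀ (V : Type u) (W : Type (max w z)) [Fintype V] [Fintype W]
      (A : W → V → ℝ), (∀ v, ∑ R, A R v ^ 2 ≤ 1) →
      ∃ x : V → ℝ, (∀ v, x v = 1 ∨ x v = -1) ∧
      ∀ (R : W) (N : ℝ), (∑ v, (if A R v = 0 then (0 : ℝ) else 1)) ≤ N →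
        |∑ v, A R v * x v| ≤ C * (1 + Real.log D) * (1 + N / D))
    (S : ι → Finset X) (I₀ : Finset ι) (K₀ : Finset K) (t : ℕ) (ht : 1 ≤ t)
    (hdeg : ∀ x, ∑ i ∈ I₀, (open Classical in if x ∈ S i then (1 : ℝ) else 0) ≤ t)
    (N : ℕ) (hN : 1 ≤ N) (n : ℕ) (F : Fin (2 ^ (n + 1)) → X → K) :
    ∃ G : Fin (2 ^ n) → X → K, (∀ i x, ∃ j, G i x = F j x) ∧
      ∀ R ∈ I₀, ∀ a ∈ K₀, |M G (S R) a - M F (S R) a| ≤
        C * √t * (1 + Real.log N) * (1 + 2 * n) *
          ((2 ^ n)⁻¹ + 2 * M F (S R) a / (N * 4 ^ n)) := by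
  classical
  have hcard : Fintype.card (Bool × Fin (2 ^ n)) = Fintype.card (Fin (2 ^ (n + 1))) := by
    simp [pow_succ, mul_comm]
  let E : Bool × Fin (2 ^ n) ≃ Fin (2 ^ (n + 1)) := Fintype.equivOfCardEq hcard
  obtain ⟨F0, hF0⟩ : ∃ F0 : Fin (2 ^ n) → X → K, F0 = fun i => F (E (false, i)) := ⟨_, rfl⟩
  obtain ⟨F1, hF1⟩ : ∃ F1 : Fin (2 ^ n) → X → K, F1 = fun i => F (E (true, i)) := ⟨_, rfl⟩
  obtain ⟨X₀, hX₀⟩ : ∃ X₀ : Finset X, X₀ = I₀.biUnion S := ⟨_, rfl⟩
  have ht0 : (0 : ℝ) < t := by exact_mod_cast ht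
  have hst : 0 < √(t : ℝ) := Real.sqrt_pos.2 ht0
  obtain ⟨D, hD⟩ : ∃ D : ℕ, D = N * 4 ^ n := ⟨_, rfl⟩
  have hD1 : 1 ≤ D := by
    rw [hD]
    exact Nat.one_le_iff_ne_zero.2 (by positivity)
  obtain ⟨s, s1, s2⟩ := H D hD1 (Fin (2 ^ n) × X₀) (ULift.{max w z} (I₀ × K₀))
    (fun R v => mat S (2 * √t) (F0 v.1) (F1 v.1) (R.down.1 : ι) (R.down.2 : K) (v.2 : X)) (by
      intro v
      rw [← Equiv.sum_comp Equiv.ulift.symm]
      change ∑ R : I₀ × K₀, mat S (2 * √t) (F0 v.1) (F1 v.1) (R.1 : ι) (R.2 : K) (v.2 : X) ^ 2 ≤ 1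
      rw [Fintype.sum_prod_type]
      have h1 : ∀ R : I₀, ∑ a : K₀,
          mat S (2 * √t) (F0 v.1) (F1 v.1) (R : ι) (a : K) (v.2 : X) ^ 2 ≤
          (if (v.2 : X) ∈ S R then (1 : ℝ) else 0) * (1 / t) := by
        intro R
        rw [Finset.sum_coe_sort K₀ (fun a =>
          mat S (2 * √t) (F0 v.1) (F1 v.1) (R : ι) a (v.2 : X) ^ 2)]
        unfold mat
        split_ifs with h
        · simp only [div_pow, mul_pow, Real.sq_sqrt ht0.le]
          rw [← Finset.sum_div, one_mul, div_le_div_iff₀ (by positivity) ht0]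
          have := e_sq_sum K₀ (F0 v.1 v.2) (F1 v.1 v.2)
          nlinarith
        · simp
      refine (sum_le_sum fun R _ => h1 R).trans ?_
      rw [← Finset.sum_mul, Finset.sum_coe_sort I₀ (fun R => if (v.2 : X) ∈ S R then (1 : ℝ) else 0)]
      have h2 := hdeg (v.2 : X)
      calc (∑ R ∈ I₀, if (v.2 : X) ∈ S R then (1 : ℝ) else 0) * (1 / t) ≤ t * (1 / t) := by
            gcongr
        _ = 1 := by
            field_simp)
  obtain ⟨G, hG⟩ : ∃ G : Fin (2 ^ n) → X → K, G = fun i x =>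
      if h : x ∈ X₀ then (if s (i, ⟨x, h⟩) = 1 then F0 i x else F1 i x) else F0 i x := ⟨_, rfl⟩
  refine ⟨G, ?_, ?_⟩
  · intro i x
    rw [hG]
    dsimp only
    split_ifs
    · exact ⟨E (false, i), by rw [hF0]⟩
    · exact ⟨E (true, i), by rw [hF1]⟩
    · exact ⟨E (false, i), by rw [hF0]⟩
  intro R hR a ha
  have hsub : S R ⊆ X₀ := by
    rw [hX₀]
    exact Finset.subset_biUnion_of_mem S hR
  -- the two means
  have hMF : M F (S R) a = (2 ^ (n + 1))⁻¹ *
      ∑ i, (cnt (F0 i) (S R) a + cnt (F1 i) (S R) a) := by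
    unfold M
    rw [← Equiv.sum_comp E, Fintype.sum_prod_type, Fintype.sum_bool, sum_add_distrib, hF0, hF1]
    congr 1
    ring
  have hsum : ∑ v : Fin (2 ^ n) × X₀, mat S (2 * √t) (F0 v.1) (F1 v.1) R a (v.2 : X) * s v =
      (√t)⁻¹ * ∑ i, (cnt (G i) (S R) a - (cnt (F0 i) (S R) a + cnt (F1 i) (S R) a) / 2) := by
    rw [Fintype.sum_prod_type, mul_sum]
    refine sum_congr rfl fun i _ => ?_
    obtain ⟨φ, hφ⟩ : ∃ φ : X → ℝ, φ = fun x => if h : x ∈ X₀ then s (i, ⟨x, h⟩) else 0 :=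
      ⟨_, rfl⟩
    have e1 : ∑ y : X₀, mat S (2 * √t) (F0 i) (F1 i) R a (y : X) * s (i, y) =
        ∑ y ∈ X₀, mat S (2 * √t) (F0 i) (F1 i) R a y * φ y := by
      rw [← Finset.sum_coe_sort X₀ (fun y => mat S (2 * √t) (F0 i) (F1 i) R a y * φ y)]
      refine sum_congr rfl fun y _ => ?_
      rw [hφ]
      dsimp only
      rw [dif_pos y.2]
    rw [e1, ← Finset.sum_subset hsub (fun y _ hy => by
      unfold mat
      rw [if_neg hy, zero_mul])]
    unfold cnt
    rw [← sum_add_distrib, sum_div, ← sum_sub_distrib, mul_sum]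
    refine sum_congr rfl fun y hy => ?_
    have hy0 : y ∈ X₀ := hsub hy
    unfold mat
    rw [if_pos hy, hφ, hG]
    dsimp only
    rw [dif_pos hy0, dif_pos hy0]
    rcases s1 (i, ⟨y, hy0⟩) with h | h
    · rw [h, if_pos rfl]
      field_simp
      ring
    · rw [h, if_neg (by norm_num)]
      field_simp
      ring
  have hdiff : M G (S R) a - M F (S R) a = (2 ^ n)⁻¹ * √t *
      ∑ v : Fin (2 ^ n) × X₀, mat S (2 * √t) (F0 v.1) (F1 v.1) R a (v.2 : X) * s v := by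
    rw [hsum, hMF]
    unfold M
    rw [sum_sub_distrib, ← sum_div, pow_succ]
    field_simp
  have hnum : ∑ v : Fin (2 ^ n) × X₀,
      (if mat S (2 * √t) (F0 v.1) (F1 v.1) R a (v.2 : X) = 0 then (0 : ℝ) else 1) ≤
      2 ^ (n + 1) * M F (S R) a := by
    rw [hMF, ← mul_assoc, mul_inv_cancel₀ (by positivity), one_mul, Fintype.sum_prod_type]
    refine sum_le_sum fun i _ => ?_
    rw [Finset.sum_coe_sort X₀ (fun y =>
      if mat S (2 * √t) (F0 i) (F1 i) R a y = 0 then (0 : ℝ) else 1),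
      ← Finset.sum_subset hsub (fun y _ hy => by
      rw [if_pos]
      unfold mat
      rw [if_neg hy])]
    unfold cnt
    rw [← sum_add_distrib]
    refine sum_le_sum fun y hy => ?_
    split_ifs with h
    · exact add_nonneg (e_nonneg _ _) (e_nonneg _ _)
    · unfold mat at h
      rw [if_pos hy] at h
      unfold e at h ⊢
      split_ifs at h ⊢ <;> first | (exfalso; revert h; norm_num; done) | norm_num
  have hmain := s2 ⟨⟨R, hR⟩, ⟨a, ha⟩⟩ _ hnum
  dsimp only at hmain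
  rw [hdiff, abs_mul, abs_of_nonneg (by positivity)]
  have hN1 : (1 : ℝ) ≤ N := by exact_mod_cast hN
  have hlN : 0 ≤ Real.log (N : ℝ) := Real.log_nonneg hN1
  have hlogD : 1 + Real.log (D : ℝ) ≤ (1 + Real.log N) * (1 + 2 * n) := by
    rw [hD]
    push_cast
    rw [Real.log_mul (by positivity) (by positivity), Real.log_pow]
    have h4 : Real.log 4 ≤ 2 := by
      have : Real.log 4 = 2 * Real.log 2 := by
        rw [show (4 : ℝ) = 2 ^ 2 by norm_num, Real.log_pow]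
        norm_num
      rw [this]
      have := Real.log_two_lt_d9
      linarith
    have hn : (0 : ℝ) ≤ n := Nat.cast_nonneg n
    have h5 : (n : ℝ) * Real.log 4 ≤ n * 2 := by gcongr
    nlinarith [mul_nonneg hlN hn]
  have hMn := M_nonneg F (S R) a
  have hDr : (D : ℝ) = N * 4 ^ n := by
    rw [hD]
    push_cast
    ring
  calc (2 ^ n)⁻¹ * √t * |∑ v : Fin (2 ^ n) × X₀,
        mat S (2 * √t) (F0 v.1) (F1 v.1) R a (v.2 : X) * s v|
      ≤ (2 ^ n)⁻¹ * √t * (C * (1 + Real.log D) * (1 + 2 ^ (n + 1) * M F (S R) a / D)) := by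
        gcongr
    _ ≤ (2 ^ n)⁻¹ * √t * (C * ((1 + Real.log N) * (1 + 2 * n)) *
          (1 + 2 ^ (n + 1) * M F (S R) a / D)) := by
        gcongr
    _ = C * √t * (1 + Real.log N) * (1 + 2 * n) *
          ((2 ^ n)⁻¹ + 2 * M F (S R) a / (N * 4 ^ n)) := by
        rw [hDr, pow_succ]
        field_simp

end

end Pool.Agent.U531.FP
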