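import Pool.Agent.U531.FP.Ind

set_option autoImplicit false

/-!
# From fractional partitions to `2 ^ n` colourings; compactness
-/

open Finset

namespace Pool.Agent.U531.FP

noncomputable section

universe u w z

variable {X : Type u} {ι : Type w} {K : Type z}

/-- rounding a nonnegative function -/
theorem round_aux (y : K → ℝ) (hy : ∀ a, 0 ≤ y a) (s : Finset K) :
    ∃ c : K → ℕ, (∀ a ∈ s, |(c a : ℝ) - y a| ≤ 1 ∧ (y a = 0 → c a = 0)) ∧
      ∑ a ∈ s, c a = ⌊∑ a ∈ s, y a⌋₊ := by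
  classical
  induction s using Finset.induction_on with
  | empty => exact ⟨fun _ => 0, by simp, by simp⟩
  | insert b s hb ih =>
    obtain ⟨c, hc1, hc2⟩ := ih
    have hY : 0 ≤ ∑ a ∈ s, y a := sum_nonneg fun a _ => hy a
    have hb0 := hy b
    have hmono : ⌊∑ a ∈ s, y a⌋₊ ≤ ⌊y b + ∑ a ∈ s, y a⌋₊ := Nat.floor_mono (by linarith)
    refine ⟨Function.update c b (⌊y b + ∑ a ∈ s, y a⌋₊ - ⌊∑ a ∈ s, y a⌋₊), ?_, ?_⟩
    · intro a ha
      rcases Finset.mem_insert.1 ha with h | h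
      · subst h
        rw [Function.update_self]
        constructor
        · rw [Nat.cast_sub hmono, abs_le]
          have h1 := Nat.floor_le hY
          have h2 := Nat.lt_floor_add_one (∑ a ∈ s, y a)
          have h3 := Nat.floor_le (add_nonneg hb0 hY)
          have h4 := Nat.lt_floor_add_one (y a + ∑ a ∈ s, y a)
          constructor <;> linarith
        · intro h0
          rw [h0, zero_add, Nat.sub_self]
      · have hab : a ≠ b := fun h1 => hb (h1 ▸ h)
        rw [Function.update_of_ne hab]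
        exact hc1 a h
    · rw [Finset.sum_insert hb, Finset.sum_insert hb, Function.update_self]
      have h1 : ∑ a ∈ s, Function.update c b
          (⌊y b + ∑ a ∈ s, y a⌋₊ - ⌊∑ a ∈ s, y a⌋₊) a = ∑ a ∈ s, c a := by
        refine sum_congr rfl fun a ha => ?_
        have hab : a ≠ b := fun h1 => hb (h1 ▸ ha)
        rw [Function.update_of_ne hab]
      rw [h1, hc2]
      omega

/-- `m` values with frequencies close to a probability -/
theorem thr (p : K →₀ ℝ) (hp : ∀ a, 0 ≤ p a) (h1 : p.sum (fun _ r => r) = 1) (m : ℕ) :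
    ∃ φ : Fin m → K, (∀ j, φ j ∈ p.support) ∧ ∀ a, |∑ j, e (φ j) a - m * p a| ≤ 1 := by
  classical
  obtain ⟨c, hc1, hc2⟩ := round_aux (fun a => m * p a)
    (fun a => mul_nonneg (Nat.cast_nonneg m) (hp a)) p.support
  have hsum : ∑ a ∈ p.support, (m : ℝ) * p a = m := by
    rw [← mul_sum]
    have : ∑ a ∈ p.support, p a = 1 := h1
    rw [this, mul_one]
  rw [hsum, Nat.floor_natCast] at hc2
  have hcard : Fintype.card (Fin m) = Fintype.card (Σ a : p.support, Fin (c a)) := by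
    rw [Fintype.card_fin, Fintype.card_sigma]
    simp only [Fintype.card_fin]
    rw [Finset.sum_coe_sort p.support c, hc2]
  let E : Fin m ≃ (Σ a : p.support, Fin (c a)) := Fintype.equivOfCardEq hcard
  refine ⟨fun j => (E j).1, fun j => (E j).1.2, fun a => ?_⟩
  by_cases ha : a ∈ p.support
  · have h2 : ∑ j, e ((E j).1 : K) a = c a := by
      rw [Equiv.sum_comp E (fun σ : (Σ a : p.support, Fin (c a)) => e (σ.1 : K) a),
        Fintype.sum_sigma]
      simp only [sum_const, card_univ, Fintype.card_fin, nsmul_eq_mul]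
      rw [Finset.sum_coe_sort p.support (fun b => (c b : ℝ) * e b a),
        Finset.sum_eq_single a]
      · unfold e
        rw [if_pos rfl, mul_one]
      · intro b _ hb
        unfold e
        rw [if_neg hb, mul_zero]
      · intro h
        exact absurd ha h
    rw [h2]
    exact (hc1 a ha).1
  · have h2 : ∑ j, e ((E j).1 : K) a = 0 := by
      refine sum_eq_zero fun j _ => ?_
      unfold e
      rw [if_neg]
      intro h
      exact ha (h ▸ (E j).1.2)
    have h3 : p a = 0 := Finsupp.notMem_support_iff.1 ha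
    rw [h2, h3]
    simp

/-- finitely many sets, up to `ε` -/
theorem fin_stage {C : ℝ} (hC : 0 < C)
    (H : ∀ (X : Type u) (ι : Type w) (K : Type z)
    (S : ι → Finset X) (I₀ : Finset ι) (K₀ : Finset K) (t N : ℕ), 1 ≤ t → t ≤ N →
    (∀ x, ∑ i ∈ I₀, (open Classical in if x ∈ S i then (1 : ℝ) else 0) ≤ t) →
    ∀ (n : ℕ) (F : Fin (2 ^ n) → X → K),
    ∃ g : X → K, (∀ x, ∃ j, g x = F j x) ∧
      ∀ R ∈ I₀, ∀ a ∈ K₀, |cnt g (S R) a - M F (S R) a| ≤
        C * √t * (1 + Real.log N) * (1 + M F (S R) a / N))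
    (S : ι → Finset X) (I₀ : Finset ι) (K₀ : Finset K) (t N : ℕ) (ht : 1 ≤ t) (htN : t ≤ N)
    (hdeg : ∀ x, ∑ i ∈ I₀, (open Classical in if x ∈ S i then (1 : ℝ) else 0) ≤ t)
    (p : X → K →₀ ℝ) (hp : ∀ x a, 0 ≤ p x a) (h1 : ∀ x, (p x).sum (fun _ r => r) = 1)
    (ε : ℝ) (hε : 0 < ε) :
    ∃ g : X → K, (∀ x, g x ∈ (p x).support) ∧
      ∀ R ∈ I₀, ∀ a ∈ K₀, |cnt g (S R) a - ∑ x ∈ S R, p x a| ≤
        C * √t * (1 + Real.log N) * (1 + (∑ x ∈ S R, p x a) / N) + ε := by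
  classical
  have hN1 : (1 : ℝ) ≤ N := by exact_mod_cast ht.trans htN
  have hN0 : (0 : ℝ) < N := by linarith
  have hlN : 0 ≤ Real.log (N : ℝ) := Real.log_nonneg hN1
  obtain ⟨Q, hQ⟩ : ∃ Q : ℝ, Q = C * √t * (1 + Real.log N) := ⟨_, rfl⟩
  have hQ0 : 0 ≤ Q := by
    rw [hQ]
    positivity
  obtain ⟨s, hs⟩ : ∃ s : ℝ, s = ∑ R ∈ I₀, ((S R).card : ℝ) := ⟨_, rfl⟩
  obtain ⟨n, hn⟩ := exists_nat_gt (s * (1 + Q / N) / ε)
  have hn2 : s * (1 + Q / N) ≤ ε * 2 ^ n := by
    have h2 : (n : ℝ) ≤ 2 ^ n := by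
      have := (Nat.lt_two_pow_self (n := n)).le
      exact_mod_cast this
    rw [div_lt_iff₀ hε] at hn
    nlinarith
  choose φ hφ1 hφ2 using fun x => thr (p x) (hp x) (h1 x) (2 ^ n)
  obtain ⟨g, hg1, hg2⟩ := H X ι K S I₀ K₀ t N ht htN hdeg n (fun j x => φ x j)
  refine ⟨g, ?_, ?_⟩
  · intro x
    obtain ⟨j, hj⟩ := hg1 x
    rw [hj]
    exact hφ1 x j
  · intro R hR a ha
    have h2 := hg2 R hR a ha
    have hM : |M (fun j x => φ x j) (S R) a - ∑ x ∈ S R, p x a| ≤ s / 2 ^ n := by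
      have e1 : M (fun j x => φ x j) (S R) a - ∑ x ∈ S R, p x a =
          (2 ^ n)⁻¹ * ∑ x ∈ S R, (∑ j, e (φ x j) a - ((2 ^ n : ℕ) : ℝ) * p x a) := by
        unfold M cnt
        rw [sum_comm, sum_sub_distrib, ← mul_sum, mul_sub, Nat.cast_pow, Nat.cast_ofNat,
          inv_mul_cancel_left₀ (by positivity)]
      rw [e1, abs_mul, abs_of_nonneg (by positivity), inv_mul_eq_div]
      refine div_le_div_of_nonneg_right ?_ (by positivity)
      refine (abs_sum_le_sum_abs _ _).trans ((sum_le_sum fun x _ => hφ2 x a).trans ?_)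
      rw [sum_const, nsmul_eq_mul, mul_one, hs]
      exact single_le_sum (f := fun R => ((S R).card : ℝ)) (fun R _ => Nat.cast_nonneg _) hR
    rw [← hQ] at h2 ⊢
    have h3 : M (fun j x => φ x j) (S R) a ≤ ∑ x ∈ S R, p x a + s / 2 ^ n := by
      have := (abs_le.1 hM).2
      linarith
    have h4 : |cnt g (S R) a - ∑ x ∈ S R, p x a| ≤
        |cnt g (S R) a - M (fun j x => φ x j) (S R) a| +
        |M (fun j x => φ x j) (S R) a - ∑ x ∈ S R, p x a| := by
      have := abs_add_le (cnt g (S R) a - M (fun j x => φ x j) (S R) a)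
        (M (fun j x => φ x j) (S R) a - ∑ x ∈ S R, p x a)
      simpa using this
    have h5 : Q * (1 + M (fun j x => φ x j) (S R) a / N) ≤
        Q * (1 + (∑ x ∈ S R, p x a + s / 2 ^ n) / N) := by gcongr
    have h6 : s / 2 ^ n * (1 + Q / N) ≤ ε := by
      rw [div_mul_eq_mul_div, div_le_iff₀ (by positivity)]
      exact hn2
    have h7 : Q * (1 + (∑ x ∈ S R, p x a + s / 2 ^ n) / N) + s / 2 ^ n =
        Q * (1 + (∑ x ∈ S R, p x a) / N) + s / 2 ^ n * (1 + Q / N) := by ring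
    linarith

/-- **fractional partitions** -/
theorem frac : ∃ C : ℝ, 0 < C ∧ ∀ (t : ℕ) (D : ℝ), 1 ≤ t → (t : ℝ) ≤ D →
    ∀ (X : Type u) (ι : Type w) (K : Type z) (S : ι → Finset X),
    (∀ x, {i | x ∈ S i}.encard ≤ t) →
    ∀ p : X → K →₀ ℝ, (∀ x a, 0 ≤ p x a) → (∀ x, (p x).sum (fun _ r => r) = 1) →
    ∃ g : X → K, (∀ x, 0 < p x (g x)) ∧
      ∀ i a, |cnt g (S i) a - ∑ x ∈ S i, p x a| ≤
        C * √t * (1 + Real.log D) * (1 + (∑ x ∈ S i, p x a) / D) := by
  classical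
  obtain ⟨C, hC, H⟩ := merge_all.{u, w, z}
  refine ⟨2 * C, by positivity, ?_⟩
  intro t D ht htD X ι K S hdeg p hp h1
  have hD1 : (1 : ℝ) ≤ D := le_trans (by exact_mod_cast ht) htD
  have hlD : 0 ≤ Real.log D := Real.log_nonneg hD1
  obtain ⟨N, hN⟩ : ∃ N : ℕ, N = ⌈D⌉₊ := ⟨_, rfl⟩
  have hDN : D ≤ N := by
    rw [hN]
    exact Nat.le_ceil D
  have htN : t ≤ N := by exact_mod_cast htD.trans hDN
  have hND : (N : ℝ) ≤ 2 * D := by
    rw [hN]
    have := Nat.ceil_lt_add_one (show (0 : ℝ) ≤ D by linarith)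
    linarith
  have hN0 : (0 : ℝ) < N := by linarith
  have hlog : 1 + Real.log N ≤ 2 * (1 + Real.log D) := by
    have h2 : Real.log N ≤ Real.log (2 * D) := Real.log_le_log hN0 hND
    rw [Real.log_mul (by norm_num) (by linarith)] at h2
    have := Real.log_two_lt_d9
    linarith
  obtain ⟨B, hB⟩ : ∃ B : ι → K → ℝ, B = fun i a =>
    2 * C * √t * (1 + Real.log D) * (1 + (∑ x ∈ S i, p x a) / D) := ⟨_, rfl⟩
  have hdeg' : ∀ I₀ : Finset ι, ∀ x, ∑ i ∈ I₀, (if x ∈ S i then (1 : ℝ) else 0) ≤ t := by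
    intro I₀ x
    rw [Finset.sum_boole]
    have h2 : ((I₀.filter (fun i => x ∈ S i) : Set ι)).encard ≤ t := by
      refine (Set.encard_le_encard ?_).trans (hdeg x)
      intro i hi
      exact (mem_filter.1 hi).2
    rw [Set.encard_coe_eq_coe_finsetCard] at h2
    exact_mod_cast h2
  let _ : TopologicalSpace K := ⊥
  have _ : DiscreteTopology K := ⟨rfl⟩
  let T : ι × K × ℕ → Set (X → K) := fun o =>
    {g | |cnt g (S o.1) o.2.1 - ∑ x ∈ S o.1, p x o.2.1| ≤ B o.1 o.2.1 + 1 / ((o.2.2 : ℝ) + 1)}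
  have hcl : ∀ o, IsClosed (T o) := by
    intro o
    refine isClosed_le ?_ continuous_const
    refine Continuous.abs (Continuous.sub ?_ continuous_const)
    unfold cnt
    refine continuous_finsetSum _ fun x _ => ?_
    exact (continuous_of_discreteTopology (f := fun b : K => e b o.2.1)).comp
      (continuous_apply x)
  have hcomp : IsCompact (Set.univ.pi fun x => ((p x).support : Set K)) :=
    isCompact_univ_pi fun x => (p x).support.finite_toSet.isCompact
  obtain ⟨g, hg1, hg2⟩ := hcomp.inter_iInter_nonempty T hcl (by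
    intro P
    obtain ⟨m, hm⟩ : ∃ m : ℕ, ∀ o ∈ P, o.2.2 ≤ m :=
      ⟨P.sup (fun o => o.2.2), fun o ho =>
        Finset.le_sup (f := fun o : ι × K × ℕ => o.2.2) ho⟩
    obtain ⟨g, hg1, hg2⟩ := fin_stage hC H S (P.image (fun o => o.1))
      (P.image (fun o => o.2.1)) t N ht htN (hdeg' _) p hp h1 (1 / ((m : ℝ) + 1)) (by positivity)
    refine ⟨g, fun x _ => hg1 x, ?_⟩
    rw [Set.mem_iInter₂]
    intro o ho
    change |cnt g (S o.1) o.2.1 - ∑ x ∈ S o.1, p x o.2.1| ≤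
      B o.1 o.2.1 + 1 / ((o.2.2 : ℝ) + 1)
    refine (hg2 o.1 (mem_image_of_mem _ ho) o.2.1
      (mem_image.2 ⟨o, ho, rfl⟩)).trans (add_le_add ?_ ?_)
    · rw [hB]
      dsimp only
      have hμ : 0 ≤ ∑ x ∈ S o.1, p x o.2.1 := sum_nonneg fun x _ => hp x _
      calc C * √t * (1 + Real.log N) * (1 + (∑ x ∈ S o.1, p x o.2.1) / N)
          ≤ C * √t * (2 * (1 + Real.log D)) * (1 + (∑ x ∈ S o.1, p x o.2.1) / D) := by
            gcongr
        _ = 2 * C * √t * (1 + Real.log D) * (1 + (∑ x ∈ S o.1, p x o.2.1) / D) := by ring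
    · have : (o.2.2 : ℝ) ≤ m := by exact_mod_cast hm o ho
      gcongr)
  rw [Set.mem_iInter] at hg2
  refine ⟨g, ?_, ?_⟩
  · intro x
    have h2 : g x ∈ (p x).support := hg1 x (Set.mem_univ x)
    exact lt_of_le_of_ne (hp x _) (Ne.symm (Finsupp.mem_support_iff.1 h2))
  · intro i a
    have h2 : ∀ n : ℕ, |cnt g (S i) a - ∑ x ∈ S i, p x a| ≤ B i a + 1 / ((n : ℝ) + 1) :=
      fun n => hg2 (i, a, n)
    have h3 : |cnt g (S i) a - ∑ x ∈ S i, p x a| ≤ B i a + 0 :=
      ge_of_tendsto' (tendsto_const_nhds.add tendsto_one_div_add_atTop_nhds_zero_nat) h2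
    rw [add_zero, hB] at h3
    exact h3

end

end Pool.Agent.U531.FP
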